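/-
Piece KOS of the project counterexample to the Nakayama conjecture (helper433):
the Koszul complexes of the crit elements.
-/
import Pool.Agent.Run7.h433.Nak.Iface

set_option autoImplicit false

namespace Run7.h305.KOS

open Run7.h433.Nak

variable {V V' : Type} [AddCommGroup V] [Module ℚ V] [AddCommGroup V'] [Module ℚ V']

/-! ### The tables -/

theorem rows14 : ((List.range 128).all fun s => decide (row 14 s =
    if s % 4 = 2 then [(1, s - 2)] else if s % 4 = 3 then [(-1, s - 2)] else [])) = true := by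
  decide +kernel

theorem rows15 : ((List.range 128).all fun s => decide (row 15 s =
    if s % 2 = 1 then [(1, s - 1)] else [])) = true := by
  decide +kernel

theorem rows5 : ((List.range 128).all fun s => decide (s % 4 = 0 → row 5 s =
    if s < 32 then [(1, s + 32)] else if 64 ≤ s ∧ s < 96 then [(-1, s + 32)] else [])) = true := by
  decide +kernel

theorem rows6 : ((List.range 128).all fun s => decide (s % 4 = 0 → row 6 s =
    if s < 64 then [(1, s + 64)] else [])) = true := by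
  decide +kernel

theorem dA_apply (r s : I) : dA r s =
    if (s : ℕ) % 4 = 2 ∧ (s : ℕ) - 2 = r then 1 else
    if (s : ℕ) % 4 = 3 ∧ (s : ℕ) - 2 = r then -1 else 0 := by
  have h := rows14
  rw [List.all_eq_true] at h
  have h1 := of_decide_eq_true (h s (List.mem_range.2 s.isLt))
  show ((cf (row 14 s) r : ℤ) : ℚ) = _
  rw [h1]
  by_cases a : (s : ℕ) % 4 = 2
  · have b : ¬ (s : ℕ) % 4 = 3 := by omega
    by_cases c : (s : ℕ) - 2 = r <;> simp [a, c, cf]
  · by_cases b : (s : ℕ) % 4 = 3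
    · by_cases c : (s : ℕ) - 2 = r <;> simp [b, c, cf]
    · simp [a, b, cf]

theorem dZ_apply (r s : I) : dZ r s =
    if (s : ℕ) % 2 = 1 ∧ (s : ℕ) - 1 = r then 1 else 0 := by
  have h := rows15
  rw [List.all_eq_true] at h
  have h1 := of_decide_eq_true (h s (List.mem_range.2 s.isLt))
  show ((cf (row 15 s) r : ℤ) : ℚ) = _
  rw [h1]
  by_cases a : (s : ℕ) % 2 = 1
  · by_cases c : (s : ℕ) - 1 = r <;> simp [a, c, cf]
  · simp [a, cf]

theorem mY1_apply (r s : I) (hs : (s : ℕ) % 4 = 0) : mY1 r s =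
    if (s : ℕ) < 32 ∧ (s : ℕ) + 32 = r then 1 else
    if (64 ≤ (s : ℕ) ∧ (s : ℕ) < 96) ∧ (s : ℕ) + 32 = r then -1 else 0 := by
  have h := rows5
  rw [List.all_eq_true] at h
  have h1 := of_decide_eq_true (h s (List.mem_range.2 s.isLt)) hs
  show ((cf (row 5 s) r : ℤ) : ℚ) = _
  rw [h1]
  by_cases a : (s : ℕ) < 32
  · have b : ¬ (64 ≤ (s : ℕ) ∧ (s : ℕ) < 96) := by omega
    by_cases c : (s : ℕ) + 32 = r <;> simp [a, b, c, cf]
  · by_cases b : 64 ≤ (s : ℕ) ∧ (s : ℕ) < 96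
    · by_cases c : (s : ℕ) + 32 = r <;> simp [a, b, c, cf]
    · simp only [cf, a, b, false_and, if_false, Int.cast_zero]

theorem mY2_apply (r s : I) (hs : (s : ℕ) % 4 = 0) : mY2 r s =
    if (s : ℕ) < 64 ∧ (s : ℕ) + 64 = r then 1 else 0 := by
  have h := rows6
  rw [List.all_eq_true] at h
  have h1 := of_decide_eq_true (h s (List.mem_range.2 s.isLt)) hs
  show ((cf (row 6 s) r : ℤ) : ℚ) = _
  rw [h1]
  by_cases a : (s : ℕ) < 64
  · by_cases c : (s : ℕ) + 64 = r <;> simp [a, c, cf]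
  · simp [a, cf]

/-! ### Crit elements -/

/-- supported on the words without `alpha` and `zeta` -/
def Crit (u : W V) : Prop := ∀ (τ : Vt) (r : I), (r : ℕ) % 4 ≠ 0 → u τ r = 0

theorem crit_of (u : W V) (h1 : oda u = 0) (h2 : odz u = 0) : Crit u := by
  intro τ r hr
  have hodd : ∀ r : I, (r : ℕ) % 2 = 1 → u τ r = 0 := by
    intro r hr
    have h := congrFun (congrFun h2 τ) ⟨(r : ℕ) - 1, by omega⟩
    have h' : oM dZ u τ ⟨(r : ℕ) - 1, by omega⟩ = 0 := h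
    rw [oM_apply, Finset.sum_eq_single r] at h'
    · rw [dZ_apply, if_pos ⟨hr, rfl⟩, one_smul] at h'
      exact h'
    · intro s _ hs
      rw [dZ_apply, if_neg, zero_smul]
      rintro ⟨h3, h4⟩
      apply hs
      apply Fin.ext
      show (s : ℕ) = r
      have h5 : (s : ℕ) - 1 = (r : ℕ) - 1 := h4
      omega
    · simp
  by_cases ho : (r : ℕ) % 2 = 1
  · exact hodd r ho
  · have hr2 : (r : ℕ) % 4 = 2 := by omega
    have h := congrFun (congrFun h1 τ) ⟨(r : ℕ) - 2, by omega⟩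
    have h' : oM dA u τ ⟨(r : ℕ) - 2, by omega⟩ = 0 := h
    rw [oM_apply, Finset.sum_eq_single r] at h'
    · rw [dA_apply, if_pos ⟨hr2, rfl⟩, one_smul] at h'
      exact h'
    · intro s _ hs
      by_cases h3 : (s : ℕ) % 4 = 3
      · rw [hodd s (by omega), smul_zero]
      · rw [dA_apply, if_neg, if_neg, zero_smul]
        · rintro ⟨h4, -⟩; exact h3 h4
        · rintro ⟨h4, h5⟩
          apply hs
          apply Fin.ext
          have h6 : (s : ℕ) - 2 = (r : ℕ) - 2 := h5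
          omega
    · simp

theorem oda_crit (u : W V) (h : Crit u) : oda u = 0 := by
  funext τ r
  show oM dA u τ r = 0
  rw [oM_apply]
  refine Finset.sum_eq_zero fun s _ => ?_
  by_cases hs : (s : ℕ) % 4 = 0
  · rw [dA_apply, if_neg (by omega), if_neg (by omega), zero_smul]
  · rw [h τ s hs, smul_zero]

theorem odz_crit (u : W V) (h : Crit u) : odz u = 0 := by
  funext τ r
  show oM dZ u τ r = 0
  rw [oM_apply]
  refine Finset.sum_eq_zero fun s _ => ?_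
  by_cases hs : (s : ℕ) % 4 = 0
  · rw [dZ_apply, if_neg (by omega), zero_smul]
  · rw [h τ s hs, smul_zero]

/-! ### The operator `Y` on crit elements -/

theorem y1_apply (u : W V) (h : Crit u) (τ : Vt) (r : I) : oM mY1 u τ r =
    if 32 ≤ (r : ℕ) ∧ (r : ℕ) < 64 then u τ ⟨(r : ℕ) - 32, by omega⟩ else
    if 96 ≤ (r : ℕ) then -u τ ⟨(r : ℕ) - 32, by omega⟩ else 0 := by
  rw [oM_apply]
  by_cases h1 : 32 ≤ (r : ℕ) ∧ (r : ℕ) < 64
  · rw [if_pos h1, Finset.sum_eq_single ⟨(r : ℕ) - 32, by omega⟩]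
    · by_cases h2 : ((r : ℕ) - 32) % 4 = 0
      · rw [mY1_apply r ⟨(r : ℕ) - 32, by omega⟩ h2, if_pos, one_smul]
        exact ⟨by show (r : ℕ) - 32 < 32; omega, by show (r : ℕ) - 32 + 32 = r; omega⟩
      · rw [h τ ⟨(r : ℕ) - 32, by omega⟩ h2, smul_zero]
    · intro s _ hs
      have hs' : (s : ℕ) ≠ (r : ℕ) - 32 := fun h' => hs (Fin.ext h')
      by_cases h2 : (s : ℕ) % 4 = 0
      · rw [mY1_apply r s h2, if_neg (by omega), if_neg (by omega), zero_smul]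
      · rw [h τ s h2, smul_zero]
    · simp
  · rw [if_neg h1]
    by_cases h3 : 96 ≤ (r : ℕ)
    · rw [if_pos h3, Finset.sum_eq_single ⟨(r : ℕ) - 32, by omega⟩]
      · by_cases h2 : ((r : ℕ) - 32) % 4 = 0
        · have hr := r.isLt
          rw [mY1_apply r ⟨(r : ℕ) - 32, by omega⟩ h2, if_neg, if_pos, neg_one_smul]
          · exact ⟨⟨by show 64 ≤ (r : ℕ) - 32; omega, by show (r : ℕ) - 32 < 96; omega⟩,
              by show (r : ℕ) - 32 + 32 = r; omega⟩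
          · rintro ⟨h4, -⟩
            have h5 : (r : ℕ) - 32 < 32 := h4
            omega
        · rw [h τ ⟨(r : ℕ) - 32, by omega⟩ h2, smul_zero, neg_zero]
      · intro s _ hs
        have hs' : (s : ℕ) ≠ (r : ℕ) - 32 := fun h' => hs (Fin.ext h')
        by_cases h2 : (s : ℕ) % 4 = 0
        · rw [mY1_apply r s h2, if_neg (by omega), if_neg (by omega), zero_smul]
        · rw [h τ s h2, smul_zero]
      · simp
    · rw [if_neg h3]
      refine Finset.sum_eq_zero fun s _ => ?_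
      by_cases h2 : (s : ℕ) % 4 = 0
      · rw [mY1_apply r s h2, if_neg (by omega), if_neg (by omega), zero_smul]
      · rw [h τ s h2, smul_zero]

theorem y2_apply (u : W V) (h : Crit u) (τ : Vt) (r : I) : oM mY2 u τ r =
    if 64 ≤ (r : ℕ) then u τ ⟨(r : ℕ) - 64, by omega⟩ else 0 := by
  rw [oM_apply]
  by_cases h1 : 64 ≤ (r : ℕ)
  · rw [if_pos h1, Finset.sum_eq_single ⟨(r : ℕ) - 64, by omega⟩]
    · by_cases h2 : ((r : ℕ) - 64) % 4 = 0
      · have hr := r.isLt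
        rw [mY2_apply r ⟨(r : ℕ) - 64, by omega⟩ h2, if_pos, one_smul]
        exact ⟨by show (r : ℕ) - 64 < 64; omega, by show (r : ℕ) - 64 + 64 = r; omega⟩
      · rw [h τ ⟨(r : ℕ) - 64, by omega⟩ h2, smul_zero]
    · intro s _ hs
      have hs' : (s : ℕ) ≠ (r : ℕ) - 64 := fun h' => hs (Fin.ext h')
      by_cases h2 : (s : ℕ) % 4 = 0
      · rw [mY2_apply r s h2, if_neg (by omega), zero_smul]
      · rw [h τ s h2, smul_zero]
    · simp
  · rw [if_neg h1]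
    refine Finset.sum_eq_zero fun s _ => ?_
    by_cases h2 : (s : ℕ) % 4 = 0
    · rw [mY2_apply r s h2, if_neg (by omega), zero_smul]
    · rw [h τ s h2, smul_zero]

theorem oY_app (P Q : V →ₗ[ℚ] V') (u : W V) (τ : Vt) (r : I) :
    oY P Q u τ r = P (oM mY1 u τ r) + Q (oM mY2 u τ r) := rfl

theorem Y0 (P Q : V →ₗ[ℚ] V') (u : W V) (h : Crit u) (τ : Vt) (r : I) (hr : (r : ℕ) < 32) :
    oY P Q u τ r = 0 := by
  rw [oY_app, y1_apply u h, y2_apply u h, if_neg (by omega), if_neg (by omega), if_neg (by omega),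
    map_zero, map_zero, add_zero]

theorem Y1 (P Q : V →ₗ[ℚ] V') (u : W V) (h : Crit u) (τ : Vt) (r : I) (hr : 32 ≤ (r : ℕ))
    (hr' : (r : ℕ) < 64) : oY P Q u τ r = P (u τ ⟨(r : ℕ) - 32, by omega⟩) := by
  rw [oY_app, y1_apply u h, y2_apply u h, if_pos ⟨hr, hr'⟩, if_neg (by omega), map_zero, add_zero]

theorem Y2 (P Q : V →ₗ[ℚ] V') (u : W V) (h : Crit u) (τ : Vt) (r : I) (hr : 64 ≤ (r : ℕ))
    (hr' : (r : ℕ) < 96) : oY P Q u τ r = Q (u τ ⟨(r : ℕ) - 64, by omega⟩) := by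
  rw [oY_app, y1_apply u h, y2_apply u h, if_neg (by omega), if_neg (by omega), if_pos hr,
    map_zero, zero_add]

theorem Y3 (P Q : V →ₗ[ℚ] V') (u : W V) (h : Crit u) (τ : Vt) (r : I) (hr : 96 ≤ (r : ℕ)) :
    oY P Q u τ r = -P (u τ ⟨(r : ℕ) - 32, by omega⟩) + Q (u τ ⟨(r : ℕ) - 64, by omega⟩) := by
  rw [oY_app, y1_apply u h, y2_apply u h, if_neg (by omega), if_pos hr, if_pos (by omega), map_neg]

/-! ### Degrees -/

theorem deg_m3 : ∀ (τ : Fin 12) (r : Fin 128), (r : ℕ) % 4 = 0 → vG τ - nG (r : ℕ) = -3 →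
    (r : ℕ) < 32 := by decide +kernel

theorem deg_0 : ∀ (τ : Fin 12) (r : Fin 128), (r : ℕ) % 4 = 0 → vG τ - nG (r : ℕ) = 0 →
    (r : ℕ) < 96 := by decide +kernel

theorem deg_3 : ∀ (τ : Fin 12) (r : Fin 128), (r : ℕ) % 4 = 0 → vG τ - nG (r : ℕ) = 3 →
    32 ≤ (r : ℕ) := by decide +kernel

theorem deg_6 : ∀ (τ : Fin 12) (r : Fin 128), (r : ℕ) % 4 = 0 → vG τ - nG (r : ℕ) = 6 →
    96 ≤ (r : ℕ) := by decide +kernel

theorem sh1 (τ : Vt) (r s : I) (hr : (r : ℕ) < 32 ∨ 64 ≤ (r : ℕ) ∧ (r : ℕ) < 96)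
    (hs : (s : ℕ) = r + 32) (i : ZMod 2) (g : ℤ) (h : sI τ s = i ∧ sG τ s = g + 3) :
    sI τ r = i ∧ sG τ r = g := by
  have h1 : nI (s : ℕ) = nI (r : ℕ) := by rw [hs]; unfold nI; omega
  have h2 : nG (s : ℕ) = nG (r : ℕ) - 3 := by rw [hs]; unfold nG; omega
  unfold sI sG at *
  rw [h1, h2] at h
  exact ⟨h.1, by linarith [h.2]⟩

theorem sh2 (τ : Vt) (r s : I) (hr : (r : ℕ) < 64)
    (hs : (s : ℕ) = r + 64) (i : ZMod 2) (g : ℤ) (h : sI τ s = i ∧ sG τ s = g + 3) :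
    sI τ r = i ∧ sG τ r = g := by
  have h1 : nI (s : ℕ) = nI (r : ℕ) := by rw [hs]; unfold nI; omega
  have h2 : nG (s : ℕ) = nG (r : ℕ) - 3 := by rw [hs]; unfold nG; omega
  unfold sI sG at *
  rw [h1, h2] at h
  exact ⟨h.1, by linarith [h.2]⟩

theorem kr_crit {g : ℤ} {u : W V} (h : IsKr V g u) : Crit u := crit_of u h.2.1 h.2.2

theorem kr_mk {g : ℤ} {u : W V} (h : u ∈ Wg V 0 g) (h' : Crit u) : IsKr V g u :=
  ⟨h, oda_crit u h', odz_crit u h'⟩

theorem kr_z {g : ℤ} {u : W V} (h : IsKr V g u) (τ : Vt) (r : I)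
    (hr : (r : ℕ) % 4 = 0 → vG τ - nG (r : ℕ) = g → False) : u τ r = 0 := by
  by_contra h0
  have h1 := h.1 τ r h0
  by_cases h2 : (r : ℕ) % 4 = 0
  · exact hr h2 h1.2
  · exact h0 (kr_crit h τ r h2)

/-! ### The statements -/

theorem kill0 (hV : S_VS) (m : ℕ) (u : W (Vm (m + 1))) (hc : Crit u)
    (hY : oY (vP m) (vQ m) u = 0) (τ : Vt) (r : I) (hr : (r : ℕ) < 32) : u τ r = 0 := by
  have e1 : (⟨((⟨(r : ℕ) + 32, by omega⟩ : I) : ℕ) - 32, by
      show (r : ℕ) + 32 - 32 < 128; omega⟩ : I) = r := by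
    apply Fin.ext; show (r : ℕ) + 32 - 32 = r; omega
  have e2 : (⟨((⟨(r : ℕ) + 64, by omega⟩ : I) : ℕ) - 64, by
      show (r : ℕ) + 64 - 64 < 128; omega⟩ : I) = r := by
    apply Fin.ext; show (r : ℕ) + 64 - 64 = r; omega
  refine hV.inj m _ ?_ ?_
  · have h := congrFun (congrFun hY τ) ⟨(r : ℕ) + 32, by omega⟩
    rw [Y1 _ _ u hc τ ⟨(r : ℕ) + 32, by omega⟩ (by show 32 ≤ (r : ℕ) + 32; omega)
      (by show (r : ℕ) + 32 < 64; omega), e1] at h
    exact h
  · have h := congrFun (congrFun hY τ) ⟨(r : ℕ) + 64, by omega⟩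
    rw [Y2 _ _ u hc τ ⟨(r : ℕ) + 64, by omega⟩ (by show 64 ≤ (r : ℕ) + 64; omega)
      (by show (r : ℕ) + 64 < 96; omega), e2] at h
    exact h

theorem kos (hV : S_VS) : S_KOS where
  K1 := by
    intro m u hu hY
    have hc := kr_crit hu
    funext τ r
    show u τ r = 0
    by_cases hr : (r : ℕ) < 32
    · exact kill0 hV m u hc hY τ r hr
    · exact kr_z hu τ r fun h1 h2 => hr (deg_m3 τ r h1 h2)
  K2 := by
    intro m u hu hY
    have hc := kr_crit hu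
    have h0 := kill0 hV m u hc hY
    have hex : ∀ (τ : Vt) (r : I), ∃ v : Vm (m + 2), (∀ hr : (r : ℕ) < 32,
        vP (m + 1) v = u τ ⟨(r : ℕ) + 32, by omega⟩ ∧ vQ (m + 1) v = u τ ⟨(r : ℕ) + 64, by omega⟩) ∧
        (v ≠ 0 → (r : ℕ) % 4 = 0 ∧ sI τ r = 0 ∧ sG τ r = -3) ∧ (¬ (r : ℕ) < 32 → v = 0) := by
      intro τ r
      by_cases hr : (r : ℕ) < 32
      · by_cases hz : u τ ⟨(r : ℕ) + 32, by omega⟩ = 0 ∧ u τ ⟨(r : ℕ) + 64, by omega⟩ = 0
        · exact ⟨0, fun _ => ⟨by rw [hz.1, map_zero], by rw [hz.2, map_zero]⟩,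
            fun h => absurd rfl h, fun h => absurd hr h⟩
        · have h := congrFun (congrFun hY τ) ⟨(r : ℕ) + 96, by omega⟩
          rw [Y3 _ _ u hc τ ⟨(r : ℕ) + 96, by omega⟩ (by show 96 ≤ (r : ℕ) + 96; omega)] at h
          have e1 : (⟨((⟨(r : ℕ) + 96, by omega⟩ : I) : ℕ) - 32, by
            show (r : ℕ) + 96 - 32 < 128; omega⟩ : I) = ⟨(r : ℕ) + 64, by omega⟩ := by
            apply Fin.ext; show (r : ℕ) + 96 - 32 = r + 64; omega
          have e2 : (⟨((⟨(r : ℕ) + 96, by omega⟩ : I) : ℕ) - 64, by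
            show (r : ℕ) + 96 - 64 < 128; omega⟩ : I) = ⟨(r : ℕ) + 32, by omega⟩ := by
            apply Fin.ext; show (r : ℕ) + 96 - 64 = r + 32; omega
          rw [e1, e2] at h
          have h3 : vQ m (u τ ⟨(r : ℕ) + 32, by omega⟩) = vP m (u τ ⟨(r : ℕ) + 64, by omega⟩) := by
            have h4 : -vP m (u τ ⟨(r : ℕ) + 64, by omega⟩) +
              vQ m (u τ ⟨(r : ℕ) + 32, by omega⟩) = 0 := h
            rw [neg_add_eq_zero] at h4
            exact h4.symm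
          obtain ⟨v, hv1, hv2⟩ := hV.poin m _ _ h3
          refine ⟨v, fun _ => ⟨hv1, hv2⟩, fun _ => ?_, fun h => absurd hr h⟩
          by_cases hz1 : u τ ⟨(r : ℕ) + 32, by omega⟩ = 0
          · have hz2 : u τ ⟨(r : ℕ) + 64, by omega⟩ ≠ 0 := fun h' => hz ⟨hz1, h'⟩
            have h5 : (r : ℕ) % 4 = 0 := by
              by_contra h6
              exact hz2 (hc τ ⟨(r : ℕ) + 64, by omega⟩ (by show ((r : ℕ) + 64) % 4 ≠ 0; omega))
            exact ⟨h5, sh2 τ r ⟨(r : ℕ) + 64, by omega⟩ (by omega) rfl 0 (-3)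
              (by simpa using hu.1 τ _ hz2)⟩
          · have h5 : (r : ℕ) % 4 = 0 := by
              by_contra h6
              exact hz1 (hc τ ⟨(r : ℕ) + 32, by omega⟩ (by show ((r : ℕ) + 32) % 4 ≠ 0; omega))
            exact ⟨h5, sh1 τ r ⟨(r : ℕ) + 32, by omega⟩ (Or.inl hr) rfl 0 (-3)
              (by simpa using hu.1 τ _ hz1)⟩
      · exact ⟨0, fun h => absurd h hr, fun h => absurd rfl h, fun _ => rfl⟩
    choose v hv1 hv2 hv3 using hex
    have hvc : Crit (v : W (Vm (m + 2))) := by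
      intro τ r hr
      by_contra h
      exact hr (hv2 τ r h).1
    refine ⟨v, kr_mk (fun τ r h => (hv2 τ r h).2) hvc, ?_⟩
    funext τ r
    rcases Nat.lt_or_ge (r : ℕ) 32 with h1 | h1
    · rw [Y0 _ _ _ hvc τ r h1, h0 τ r h1]
    rcases Nat.lt_or_ge (r : ℕ) 64 with h2 | h2
    · rw [Y1 _ _ _ hvc τ r h1 h2, (hv1 τ ⟨(r : ℕ) - 32, by omega⟩
        (by show (r : ℕ) - 32 < 32; omega)).1]
      congr 1
      apply Fin.ext
      show (r : ℕ) - 32 + 32 = r
      omega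
    rcases Nat.lt_or_ge (r : ℕ) 96 with h3 | h3
    · rw [Y2 _ _ _ hvc τ r h2 h3, (hv1 τ ⟨(r : ℕ) - 64, by omega⟩
        (by show (r : ℕ) - 64 < 32; omega)).2]
      congr 1
      apply Fin.ext
      show (r : ℕ) - 64 + 64 = r
      omega
    · rw [Y3 _ _ _ hvc τ r h3, hv3 τ ⟨(r : ℕ) - 32, by omega⟩
        (by show ¬ (r : ℕ) - 32 < 32; omega), hv3 τ ⟨(r : ℕ) - 64, by omega⟩
        (by show ¬ (r : ℕ) - 64 < 32; omega), map_zero, map_zero, neg_zero, add_zero]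
      exact (kr_z hu τ r fun h4 h5 => by have := deg_0 τ r h4 h5; omega).symm
  K3 := by
    intro m u hu hY
    have hc := kr_crit hu
    have hex : ∀ (τ : Vt) (r : I), ∃ v : Vm (m + 2), (∀ hr : (r : ℕ) < 32,
        vP (m + 1) v = u τ ⟨(r : ℕ) + 32, by omega⟩ ∧ vQ (m + 1) v = u τ ⟨(r : ℕ) + 64, by omega⟩) ∧
        (∀ hr : 64 ≤ (r : ℕ) ∧ (r : ℕ) < 96,
          -vP (m + 1) v = u τ ⟨(r : ℕ) + 32, by omega⟩) ∧
        (v ≠ 0 → (r : ℕ) % 4 = 0 ∧ sI τ r = 0 ∧ sG τ r = 0) ∧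
        (32 ≤ (r : ℕ) ∧ (r : ℕ) < 64 → v = 0) := by
      intro τ r
      by_cases hr : (r : ℕ) < 32
      · by_cases hz : u τ ⟨(r : ℕ) + 32, by omega⟩ = 0 ∧ u τ ⟨(r : ℕ) + 64, by omega⟩ = 0
        · exact ⟨0, fun _ => ⟨by rw [hz.1, map_zero], by rw [hz.2, map_zero]⟩,
            fun h => absurd h (by omega), fun h => absurd rfl h, fun h => absurd h (by omega)⟩
        · have h := congrFun (congrFun hY τ) ⟨(r : ℕ) + 96, by omega⟩
          rw [Y3 _ _ u hc τ ⟨(r : ℕ) + 96, by omega⟩ (by show 96 ≤ (r : ℕ) + 96; omega)] at h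
          have e1 : (⟨((⟨(r : ℕ) + 96, by omega⟩ : I) : ℕ) - 32, by
            show (r : ℕ) + 96 - 32 < 128; omega⟩ : I) = ⟨(r : ℕ) + 64, by omega⟩ := by
            apply Fin.ext; show (r : ℕ) + 96 - 32 = r + 64; omega
          have e2 : (⟨((⟨(r : ℕ) + 96, by omega⟩ : I) : ℕ) - 64, by
            show (r : ℕ) + 96 - 64 < 128; omega⟩ : I) = ⟨(r : ℕ) + 32, by omega⟩ := by
            apply Fin.ext; show (r : ℕ) + 96 - 64 = r + 32; omega
          rw [e1, e2] at h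
          have h3 : vQ m (u τ ⟨(r : ℕ) + 32, by omega⟩) = vP m (u τ ⟨(r : ℕ) + 64, by omega⟩) := by
            have h4 : -vP m (u τ ⟨(r : ℕ) + 64, by omega⟩) +
              vQ m (u τ ⟨(r : ℕ) + 32, by omega⟩) = 0 := h
            rw [neg_add_eq_zero] at h4
            exact h4.symm
          obtain ⟨v, hv1, hv2⟩ := hV.poin m _ _ h3
          refine ⟨v, fun _ => ⟨hv1, hv2⟩, fun h => absurd h (by omega), fun _ => ?_,
            fun h => absurd h (by omega)⟩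
          by_cases hz1 : u τ ⟨(r : ℕ) + 32, by omega⟩ = 0
          · have hz2 : u τ ⟨(r : ℕ) + 64, by omega⟩ ≠ 0 := fun h' => hz ⟨hz1, h'⟩
            have h5 : (r : ℕ) % 4 = 0 := by
              by_contra h6
              exact hz2 (hc τ ⟨(r : ℕ) + 64, by omega⟩ (by show ((r : ℕ) + 64) % 4 ≠ 0; omega))
            exact ⟨h5, sh2 τ r ⟨(r : ℕ) + 64, by omega⟩ (by omega) rfl 0 0
              (by simpa using hu.1 τ _ hz2)⟩
          · have h5 : (r : ℕ) % 4 = 0 := by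
              by_contra h6
              exact hz1 (hc τ ⟨(r : ℕ) + 32, by omega⟩ (by show ((r : ℕ) + 32) % 4 ≠ 0; omega))
            exact ⟨h5, sh1 τ r ⟨(r : ℕ) + 32, by omega⟩ (Or.inl hr) rfl 0 0
              (by simpa using hu.1 τ _ hz1)⟩
      · by_cases hr2 : 64 ≤ (r : ℕ) ∧ (r : ℕ) < 96
        · by_cases hz : u τ ⟨(r : ℕ) + 32, by omega⟩ = 0
          · exact ⟨0, fun h => absurd h hr, fun _ => by rw [hz, map_zero, neg_zero],
              fun h => absurd rfl h, fun h => absurd h (by omega)⟩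
          · obtain ⟨v, hv⟩ := hV.surj (m + 1) (-u τ ⟨(r : ℕ) + 32, by omega⟩)
            refine ⟨v, fun h => absurd h hr, fun _ => by rw [hv, neg_neg], fun _ => ?_,
              fun h => absurd h (by omega)⟩
            have h5 : (r : ℕ) % 4 = 0 := by
              by_contra h6
              exact hz (hc τ ⟨(r : ℕ) + 32, by omega⟩ (by show ((r : ℕ) + 32) % 4 ≠ 0; omega))
            exact ⟨h5, sh1 τ r ⟨(r : ℕ) + 32, by omega⟩ (Or.inr hr2) rfl 0 0
              (by simpa using hu.1 τ _ hz)⟩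
        · exact ⟨0, fun h => absurd h hr, fun h => absurd h hr2, fun h => absurd rfl h,
            fun _ => rfl⟩
    choose v hv1 hv2 hv3 hv4 using hex
    have hvc : Crit (v : W (Vm (m + 2))) := by
      intro τ r hr
      by_contra h
      exact hr (hv3 τ r h).1
    refine ⟨v, kr_mk (fun τ r h => (hv3 τ r h).2) hvc, ?_⟩
    funext τ r
    rcases Nat.lt_or_ge (r : ℕ) 32 with h1 | h1
    · rw [Y0 _ _ _ hvc τ r h1]
      exact (kr_z hu τ r fun h4 h5 => by have := deg_3 τ r h4 h5; omega).symm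
    rcases Nat.lt_or_ge (r : ℕ) 64 with h2 | h2
    · rw [Y1 _ _ _ hvc τ r h1 h2, (hv1 τ ⟨(r : ℕ) - 32, by omega⟩
        (by show (r : ℕ) - 32 < 32; omega)).1]
      congr 1
      apply Fin.ext
      show (r : ℕ) - 32 + 32 = r
      omega
    rcases Nat.lt_or_ge (r : ℕ) 96 with h3 | h3
    · rw [Y2 _ _ _ hvc τ r h2 h3, (hv1 τ ⟨(r : ℕ) - 64, by omega⟩
        (by show (r : ℕ) - 64 < 32; omega)).2]
      congr 1
      apply Fin.ext
      show (r : ℕ) - 64 + 64 = r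
      omega
    · have hlt := r.isLt
      rw [Y3 _ _ _ hvc τ r h3, hv4 τ ⟨(r : ℕ) - 64, by omega⟩
        (by show 32 ≤ (r : ℕ) - 64 ∧ (r : ℕ) - 64 < 64; omega), map_zero, add_zero,
        hv2 τ ⟨(r : ℕ) - 32, by omega⟩ (by show 64 ≤ (r : ℕ) - 32 ∧ (r : ℕ) - 32 < 96; omega)]
      congr 1
      apply Fin.ext
      show (r : ℕ) - 32 + 32 = r
      omega
  K4 := by
    intro m u hu
    have hc := kr_crit hu
    have hex : ∀ (τ : Vt) (r : I), ∃ v : Vm (m + 1),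
        (∀ hr : 64 ≤ (r : ℕ) ∧ (r : ℕ) < 96,
          -vP m v = u τ ⟨(r : ℕ) + 32, by omega⟩) ∧
        (v ≠ 0 → (r : ℕ) % 4 = 0 ∧ sI τ r = 0 ∧ sG τ r = 3) ∧
        (¬ (64 ≤ (r : ℕ) ∧ (r : ℕ) < 96) → v = 0) := by
      intro τ r
      by_cases hr2 : 64 ≤ (r : ℕ) ∧ (r : ℕ) < 96
      · by_cases hz : u τ ⟨(r : ℕ) + 32, by omega⟩ = 0
        · exact ⟨0, fun _ => by rw [hz, map_zero, neg_zero],
            fun h => absurd rfl h, fun h => absurd hr2 h⟩
        · obtain ⟨v, hv⟩ := hV.surj m (-u τ ⟨(r : ℕ) + 32, by omega⟩)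
          refine ⟨v, fun _ => by rw [hv, neg_neg], fun _ => ?_, fun h => absurd hr2 h⟩
          have h5 : (r : ℕ) % 4 = 0 := by
            by_contra h6
            exact hz (hc τ ⟨(r : ℕ) + 32, by omega⟩ (by show ((r : ℕ) + 32) % 4 ≠ 0; omega))
          exact ⟨h5, sh1 τ r ⟨(r : ℕ) + 32, by omega⟩ (Or.inr hr2) rfl 0 3
            (by simpa using hu.1 τ _ hz)⟩
      · exact ⟨0, fun h => absurd h hr2, fun h => absurd rfl h, fun _ => rfl⟩
    choose v hv2 hv3 hv4 using hex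
    have hvc : Crit (v : W (Vm (m + 1))) := by
      intro τ r hr
      by_contra h
      exact hr (hv3 τ r h).1
    refine ⟨v, kr_mk (fun τ r h => (hv3 τ r h).2) hvc, ?_⟩
    funext τ r
    have hz : (r : ℕ) < 96 → u τ r = 0 := fun h =>
      kr_z hu τ r fun h4 h5 => by have := deg_6 τ r h4 h5; omega
    rcases Nat.lt_or_ge (r : ℕ) 32 with h1 | h1
    · rw [Y0 _ _ _ hvc τ r h1, hz (by omega)]
    rcases Nat.lt_or_ge (r : ℕ) 64 with h2 | h2
    · rw [Y1 _ _ _ hvc τ r h1 h2, hv4 τ ⟨(r : ℕ) - 32, by omega⟩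
        (by show ¬ (64 ≤ (r : ℕ) - 32 ∧ (r : ℕ) - 32 < 96); omega), map_zero, hz (by omega)]
    rcases Nat.lt_or_ge (r : ℕ) 96 with h3 | h3
    · rw [Y2 _ _ _ hvc τ r h2 h3, hv4 τ ⟨(r : ℕ) - 64, by omega⟩
        (by show ¬ (64 ≤ (r : ℕ) - 64 ∧ (r : ℕ) - 64 < 96); omega), map_zero, hz (by omega)]
    · have hlt := r.isLt
      rw [Y3 _ _ _ hvc τ r h3, hv4 τ ⟨(r : ℕ) - 64, by omega⟩
        (by show ¬ (64 ≤ (r : ℕ) - 64 ∧ (r : ℕ) - 64 < 96); omega), map_zero, add_zero,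
        hv2 τ ⟨(r : ℕ) - 32, by omega⟩ (by show 64 ≤ (r : ℕ) - 32 ∧ (r : ℕ) - 32 < 96; omega)]
      congr 1
      apply Fin.ext
      show (r : ℕ) - 32 + 32 = r
      omega

end Run7.h305.KOS

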