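/-
Piece LWS of the project counterexample to the Nakayama conjecture (helper433):
left multiplications by words, Frobenius form.
-/
import Pool.Agent.Run7.h433.Nak.Iface

set_option autoImplicit false

namespace Run7.h305.LWS

open Run7.h433.Nak

/-! ### words as lists of generators -/

/-- the letters of the word number `r` -/
def gl (r : ℕ) : List (Fin 7) :=
  (if r / 32 % 2 = 1 then [5] else []) ++ (if r / 64 % 2 = 1 then [6] else []) ++
  (if r / 16 % 2 = 1 then [1] else []) ++ (if r / 8 % 2 = 1 then [3] else []) ++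
  (if r / 4 % 2 = 1 then [4] else []) ++ (if r / 2 % 2 = 1 then [0] else []) ++
  (if r % 2 = 1 then [2] else [])

theorem gl_L : ((List.range 128).all fun r =>
    decide (wordL r = (gl r).map fun g : Fin 7 => 7 + (g : ℕ))) = true := by decide +kernel

theorem gl_R : ((List.range 128).all fun r =>
    decide (wordR r = (gl r).reverse.map fun g : Fin 7 => (g : ℕ))) = true := by decide +kernel

theorem LW_gl (r : I) : LW r = ((gl r).map lm).prod := by
  have h := gl_L
  rw [List.all_eq_true] at h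
  have h1 := of_decide_eq_true (h r (List.mem_range.2 r.isLt))
  rw [LW, h1, List.map_map]
  rfl

theorem RW_gl (r : I) : RW r = ((gl r).reverse.map rm).prod := by
  have h := gl_R
  rw [List.all_eq_true] at h
  have h1 := of_decide_eq_true (h r (List.mem_range.2 r.isLt))
  rw [RW, h1, List.map_map]
  rfl

theorem comm_list (gs : List (Fin 7)) (h : Fin 7) :
    (gs.map lm).prod * rm h = rm h * (gs.map lm).prod := by
  induction gs with
  | nil => simp
  | cons g gs ih =>
    rw [List.map_cons, List.prod_cons, mul_assoc, ih, ← mul_assoc, rel_LR, mul_assoc]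

theorem comm_lists (gs hs : List (Fin 7)) :
    (gs.map lm).prod * (hs.map rm).prod = (hs.map rm).prod * (gs.map lm).prod := by
  induction hs with
  | nil => simp
  | cons h hs ih =>
    rw [List.map_cons, List.prod_cons, ← mul_assoc, comm_list, mul_assoc, ih, mul_assoc]

theorem comm (r : I) (g : Fin 7) : LW r * rm g = rm g * LW r := by
  rw [LW_gl, comm_list]

theorem comm' (r s : I) : LW r * RW s = RW s * LW r := by
  rw [LW_gl, RW_gl, comm_lists]

/-! ### the unit -/

theorem unit_L : ((List.range 128).all fun r =>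
    decide (rowW (wordL r) [(1, 0)] = [(1, r)])) = true := by decide +kernel

theorem unit_R : ((List.range 128).all fun r =>
    decide (rowW (wordR r) [(1, 0)] = [(1, r)])) = true := by decide +kernel

theorem cf_single (r s : I) : ((cf [(1, (r : ℕ))] (s : ℕ) : ℤ) : ℚ) = if s = r then 1 else 0 := by
  by_cases h : s = r
  · subst h; simp [cf]
  · have h1 : ¬ ((r : ℕ) = s) := fun h' => h (Fin.ext h'.symm)
    simp [cf, h, h1]

theorem l0 (r s : I) : LW r s 0 = if s = r then 1 else 0 := by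
  have h := unit_L
  rw [List.all_eq_true] at h
  have h1 := of_decide_eq_true (h r (List.mem_range.2 r.isLt))
  have h2 := prod_apply (wordL r) 1 s 0
  rw [Int.cast_one, one_mul] at h2
  rw [LW, ← h2]
  show ((cf (rowW (wordL r) [(1, 0)]) (s : ℕ) : ℤ) : ℚ) = _
  rw [h1, cf_single]

theorem r0 (r s : I) : RW r s 0 = if s = r then 1 else 0 := by
  have h := unit_R
  rw [List.all_eq_true] at h
  have h1 := of_decide_eq_true (h r (List.mem_range.2 r.isLt))
  have h2 := prod_apply (wordR r) 1 s 0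
  rw [Int.cast_one, one_mul] at h2
  rw [RW, ← h2]
  show ((cf (rowW (wordR r) [(1, 0)]) (s : ℕ) : ℤ) : ℚ) = _
  rw [h1, cf_single]

/-! ### degrees -/

/-- `ZMod 2`-degree of a generator -/
def cI : Fin 7 → ℕ := ![1, 1, 0, 0, 0, 0, 0]

/-- `ℤ`-degree of a generator -/
def cG : Fin 7 → ℤ := ![0, 0, 2, 2, 2, -3, -3]

theorem deg_tab : ∀ g : Fin 7, ((List.range 128).all fun j =>
    (row (7 + (g : ℕ)) j).all fun p => decide (nI p.2 % 2 = (cI g + nI j) % 2 ∧
      nG p.2 = cG g + nG j)) = true := by decide +kernel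

theorem deg_word : ((List.range 128).all fun r =>
    decide (((gl r).map cI).sum % 2 = nI r ∧ ((gl r).map cG).sum = nG r)) = true := by
  decide +kernel

theorem cf_ne (l : Row) (i : ℕ) (h : cf l i ≠ 0) : ∃ p ∈ l, p.2 = i := by
  induction l with
  | nil => exact absurd rfl h
  | cons p l ih =>
    by_cases hp : p.2 = i
    · exact ⟨p, by simp, hp⟩
    · rw [cf, if_neg hp, zero_add] at h
      obtain ⟨q, hq, hq'⟩ := ih h
      exact ⟨q, by simp [hq], hq'⟩

theorem deg_lm (g : Fin 7) (s t : I) (h : lm g s t ≠ 0) :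
    (nI s : ZMod 2) = (cI g : ZMod 2) + (nI t : ZMod 2) ∧ nG s = cG g + nG t := by
  have h1 : cf (row (7 + (g : ℕ)) t) s ≠ 0 := fun h2 => h (by
    show ((cf (row (7 + (g : ℕ)) t) s : ℤ) : ℚ) = 0
    rw [h2, Int.cast_zero])
  obtain ⟨p, hp, hps⟩ := cf_ne _ _ h1
  have h3 := deg_tab g
  rw [List.all_eq_true] at h3
  have h4 := h3 t (List.mem_range.2 t.isLt)
  rw [List.all_eq_true] at h4
  have h5 := of_decide_eq_true (h4 p hp)
  rw [hps] at h5
  refine ⟨?_, h5.2⟩
  rw [← Nat.cast_add]
  exact (ZMod.natCast_eq_natCast_iff' _ _ 2).2 h5.1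

theorem deg_list (gs : List (Fin 7)) (s t : I) (h : (gs.map lm).prod s t ≠ 0) :
    (nI s : ZMod 2) = (((gs.map cI).sum : ℕ) : ZMod 2) + (nI t : ZMod 2) ∧
      nG s = (gs.map cG).sum + nG t := by
  induction gs generalizing s with
  | nil =>
    have h1 : s = t := by
      by_contra h2
      exact h (by rw [List.map_nil, List.prod_nil, Matrix.one_apply_ne h2])
    subst h1
    simp
  | cons g gs ih =>
    rw [List.map_cons, List.prod_cons, Matrix.mul_apply] at h
    obtain ⟨k, -, hk⟩ := Finset.exists_ne_zero_of_sum_ne_zero h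
    have h1 := deg_lm g s k (left_ne_zero_of_mul hk)
    have h2 := ih k (right_ne_zero_of_mul hk)
    rw [List.map_cons, List.sum_cons, List.map_cons, List.sum_cons]
    refine ⟨?_, ?_⟩
    · rw [h1.1, h2.1]; push_cast; ring
    · rw [h1.2, h2.2]; ring

theorem deg (r s t : I) (h : LW r s t ≠ 0) :
    (nI s : ZMod 2) = (nI r : ZMod 2) + (nI t : ZMod 2) ∧ nG s = nG r + nG t := by
  rw [LW_gl] at h
  have h1 := deg_list _ s t h
  have h2 := deg_word
  rw [List.all_eq_true] at h2
  have h3 := of_decide_eq_true (h2 r (List.mem_range.2 r.isLt))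
  refine ⟨?_, ?_⟩
  · rw [h1.1]
    congr 1
    refine (ZMod.natCast_eq_natCast_iff' _ _ 2).2 ?_
    rw [h3.1, ← h3.1, Nat.mod_mod]
  · rw [h1.2, h3.2]

/-! ### the socle -/

theorem soc_tab : ((List.range 127).all fun j => zchk (rowW (wordL 127) [(1, j + 1)])) = true := by
  decide +kernel

theorem soc (s t : I) (ht : t ≠ 0) : LW 127 s t = 0 := by
  have h := soc_tab
  rw [List.all_eq_true] at h
  have ht0 : (t : ℕ) ≠ 0 := fun h' => ht (Fin.ext h')
  have h1 := h ((t : ℕ) - 1) (List.mem_range.2 (by omega))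
  rw [show (t : ℕ) - 1 + 1 = t by omega] at h1
  have h2 := prod_apply (wordL 127) 1 s t
  rw [Int.cast_one, one_mul, cf_eq_zero _ h1, Int.cast_zero] at h2
  exact h2.symm

/-! ### the Frobenius form -/

/-- sign of a generator -/
def eg : Fin 7 → ℚ := ![1, 1, 1, 1, 1, -1, -1]

/-- sign of a generator -/
def ez : Fin 7 → ℤ := ![1, 1, 1, 1, 1, -1, -1]

theorem eg_ez : ∀ g : Fin 7, eg g = ((ez g : ℤ) : ℚ) := by
  intro g
  fin_cases g <;> simp [eg, ez]

theorem last_tab : ∀ g : Fin 7, ((List.range 128).all fun j =>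
    decide (cf (row (7 + (g : ℕ)) j) 127 = ez g * cf (row (g : ℕ) j) 127)) = true := by
  decide +kernel

theorem last (g : Fin 7) (t : I) : lm g 127 t = eg g * rm g 127 t := by
  have h := last_tab g
  rw [List.all_eq_true] at h
  have h1 := of_decide_eq_true (h t (List.mem_range.2 t.isLt))
  rw [eg_ez]
  show ((cf (row (7 + (g : ℕ)) t) 127 : ℤ) : ℚ) = ((ez g : ℤ) : ℚ) * ((cf (row (g : ℕ) t) 127 : ℤ) : ℚ)
  rw [h1, Int.cast_mul]

theorem flip (gs : List (Fin 7)) (M : Matrix I I ℚ) (t : I) :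
    ((gs.map lm).prod * M) 127 t = (gs.map eg).prod * ((gs.reverse.map rm).prod * M) 127 t := by
  induction gs generalizing M with
  | nil => simp
  | cons g gs ih =>
    have h1 : ((lm g * (gs.map lm).prod) * M) 127 t =
        eg g * ((rm g * (gs.map lm).prod) * M) 127 t := by
      rw [mul_assoc, mul_assoc, Matrix.mul_apply, Matrix.mul_apply, Finset.mul_sum]
      refine Finset.sum_congr rfl fun k _ => ?_
      rw [last, mul_assoc]
    rw [List.map_cons, List.prod_cons, h1, ← comm_list, mul_assoc, ih, List.map_cons,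
      List.prod_cons, List.reverse_cons, List.map_append, List.prod_append, List.map_cons,
      List.map_nil, List.prod_cons, List.prod_nil, mul_one, mul_assoc, mul_assoc]

theorem sign_word : ((List.range 128).all fun r =>
    decide (((gl r).map ez).prod = if nG r % 2 = 0 then 1 else -1)) = true := by
  decide +kernel

theorem sign (r : I) : ((gl r).map eg).prod = if (nG r) % 2 = 0 then (1 : ℚ) else -1 := by
  have h := sign_word
  rw [List.all_eq_true] at h
  have h1 := of_decide_eq_true (h r (List.mem_range.2 r.isLt))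
  have h2 : ∀ gs : List (Fin 7), (gs.map eg).prod = (((gs.map ez).prod : ℤ) : ℚ) := by
    intro gs
    induction gs with
    | nil => simp
    | cons g gs ih => rw [List.map_cons, List.prod_cons, List.map_cons, List.prod_cons, ih, eg_ez,
        Int.cast_mul]
  rw [h2, h1]
  split_ifs <;> simp

theorem RL (r t : I) : RW r 127 t = LW t 127 r := by
  have h := congrFun (congrFun (comm' t r) 127) 0
  rw [Matrix.mul_apply, Matrix.mul_apply, Finset.sum_eq_single r, Finset.sum_eq_single t] at h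
  · rw [l0, r0, if_pos rfl, if_pos rfl, mul_one, mul_one] at h
    exact h.symm
  · intro s _ hs
    rw [l0, if_neg hs, mul_zero]
  · simp
  · intro s _ hs
    rw [r0, if_neg hs, mul_zero]
  · simp

theorem frob (r t : I) : LW r 127 t = (if (nG r) % 2 = 0 then 1 else -1) * LW t 127 r := by
  have h := flip (gl r) 1 t
  rw [mul_one, mul_one, sign, ← LW_gl, ← RW_gl, RL] at h
  exact h

/-! ### nondegeneracy -/

/-- the dual list -/
def dual : List (List (ℤ × ℕ)) :=
  [[(1, 127)], [(1, 126)], [(-1, 125)], [(1, 124)], [(1, 123)], [(-1, 122)], [(1, 121)],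
    [(1, 120)], [(-1, 119)], [(1, 118)], [(-1, 117)], [(-1, 116)], [(1, 115), (2, 118)],
    [(1, 114)], [(-1, 113), (2, 116)], [(1, 112)], [(1, 111)], [(-1, 110)], [(1, 109)],
    [(1, 108)], [(-1, 107), (2, 110)], [(-1, 106)], [(1, 105), (2, 108)], [(-1, 104)],
    [(1, 103), (1, 121)], [(1, 102), (1, 120)], [(-1, 101)], [(1, 100)], [(1, 99)], [(-1, 98)],
    [(1, 97)], [(1, 96)], [(-1, 95)], [(-1, 94)], [(1, 93)], [(-1, 92)], [(-1, 91), (-1, 94)],
    [(1, 90)], [(-1, 89), (1, 92)], [(-1, 88)], [(1, 87)], [(-1, 86)], [(1, 85)], [(1, 84)],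
    [(-1, 83), (-3, 86)], [(-1, 82)], [(1, 81), (-3, 84)], [(-1, 80)], [(-1, 61), (-1, 79)],
    [(1, 60), (1, 78)], [(-1, 77)], [(-1, 76)], [(-1, 57), (-1, 60), (1, 75), (-1, 78)],
    [(-1, 56), (1, 74)], [(-1, 73), (-1, 76)], [(1, 72)], [(1, 53), (-1, 71), (-1, 89)],
    [(1, 52), (-1, 70), (-1, 88)], [(1, 69)], [(-1, 68)],
    [(-1, 49), (1, 52), (-1, 67), (-1, 70), (-1, 88)], [(1, 48), (1, 66)], [(-1, 65), (1, 68)],
    [(-1, 64)], [(1, 63)], [(1, 62)], [(-1, 61)], [(1, 60)], [(1, 59), (-1, 62)], [(-1, 58)],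
    [(1, 57), (1, 60)], [(1, 56)], [(-1, 55), (-1, 94)], [(1, 54)], [(-1, 53), (1, 92)],
    [(-1, 52)], [(1, 51), (1, 54), (-1, 90)], [(1, 50)], [(-1, 49), (1, 52), (-1, 88)],
    [(1, 48)], [(1, 47)], [(-1, 46)], [(1, 45)], [(1, 44)], [(-1, 43), (3, 46)], [(-1, 42)],
    [(1, 41), (3, 44)], [(-1, 40)], [(1, 39), (1, 57), (1, 60), (1, 78)], [(1, 38), (1, 56)],
    [(-1, 37), (1, 76)], [(1, 36)], [(1, 35), (-1, 38), (-1, 74)], [(-1, 34)],
    [(1, 33), (1, 36), (1, 72)], [(1, 32)], [(1, 31)], [(1, 30)], [(-1, 29)], [(1, 28)],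
    [(1, 27)], [(-1, 26)], [(1, 25)], [(1, 24)], [(-1, 23)], [(1, 22)], [(-1, 21)], [(-1, 20)],
    [(1, 19), (2, 22)], [(1, 18)], [(-1, 17), (2, 20)], [(1, 16)], [(1, 15)], [(-1, 14)],
    [(1, 13)], [(1, 12)], [(-1, 11), (2, 14)], [(-1, 10)], [(1, 9), (2, 12)], [(-1, 8)],
    [(1, 7), (1, 25)], [(1, 6), (1, 24)], [(-1, 5)], [(1, 4)], [(1, 3)], [(-1, 2)], [(1, 1)],
    [(1, 0)]]

/-- the form on words -/
def Lc (r t : ℕ) : ℤ :=
  if (nI r + nI t) % 2 = 0 ∧ nG r + nG t = 0 then cf (rowW (wordL r) [(1, t)]) 127 else 0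

theorem Lc_eq (r t : I) : ((Lc r t : ℤ) : ℚ) = LW r 127 t := by
  have h2 := prod_apply (wordL r) 1 127 t
  rw [Int.cast_one, one_mul] at h2
  rw [Lc]
  split_ifs with h
  · exact h2
  · rw [Int.cast_zero]
    symm
    by_contra h3
    have h4 := deg r 127 t h3
    apply h
    have e1 : nI ((127 : I) : ℕ) = 0 := by decide
    have e2 : nG ((127 : I) : ℕ) = 0 := by decide
    rw [e1] at h4
    rw [e2] at h4
    refine ⟨?_, h4.2.symm⟩
    have h5 := h4.1
    rw [← Nat.cast_add] at h5
    have h6 := (ZMod.natCast_eq_natCast_iff' _ _ 2).1 h5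
    omega

theorem dual_lt : (dual.all fun l => l.all fun p => Nat.blt p.2 128) = true := by decide +kernel

theorem dual_len : dual.length = 128 := by decide +kernel

theorem dual_tab : ((List.range 128).all fun t => (List.range 128).all fun t' =>
    decide (((dual.getD t []).map fun p => p.1 * Lc p.2 t').sum = if t = t' then 1 else 0)) =
    true := by decide +kernel

theorem nondeg (x : I → ℚ) (h : ∀ r : I, ∑ t : I, LW r 127 t * x t = 0) : x = 0 := by
  have hL : ∀ r : ℕ, r < 128 → ∑ t : I, ((Lc r t : ℤ) : ℚ) * x t = 0 := by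
    intro r hr
    have h1 := h ⟨r, hr⟩
    rw [← h1]
    refine Finset.sum_congr rfl fun t _ => ?_
    rw [← Lc_eq]
  have key : ∀ D : List (ℤ × ℕ), (∀ p ∈ D, p.2 < 128) →
      ∑ t : I, (((D.map fun p => p.1 * Lc p.2 t).sum : ℤ) : ℚ) * x t = 0 := by
    intro D hD
    induction D with
    | nil => simp
    | cons p D ih =>
      have h1 : ∀ t : I, ((((p :: D).map fun p => p.1 * Lc p.2 t).sum : ℤ) : ℚ) * x t =
          (p.1 : ℚ) * (((Lc p.2 t : ℤ) : ℚ) * x t) +
          (((D.map fun p => p.1 * Lc p.2 t).sum : ℤ) : ℚ) * x t := by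
        intro t
        rw [List.map_cons, List.sum_cons]
        push_cast
        ring
      simp_rw [h1]
      rw [Finset.sum_add_distrib, ← Finset.mul_sum, hL p.2 (hD p (by simp)),
        ih (fun q hq => hD q (by simp [hq])), mul_zero, add_zero]
  funext t
  have hd := dual_tab
  rw [List.all_eq_true] at hd
  have hd1 := hd t (List.mem_range.2 t.isLt)
  rw [List.all_eq_true] at hd1
  have hlt : ∀ p ∈ dual.getD t [], p.2 < 128 := by
    intro p hp
    have h1 : dual.getD t [] ∈ dual := by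
      rw [List.getD_eq_getElem _ _ (by rw [dual_len]; exact t.isLt)]
      exact List.getElem_mem _
    have h2 := dual_lt
    rw [List.all_eq_true] at h2
    have h3 := h2 _ h1
    rw [List.all_eq_true] at h3
    simpa [Nat.blt] using h3 p hp
  have h4 := key _ hlt
  rw [Finset.sum_eq_single t] at h4
  · rw [of_decide_eq_true (hd1 t (List.mem_range.2 t.isLt)), if_pos rfl, Int.cast_one,
      one_mul] at h4
    exact h4
  · intro s _ hs
    rw [of_decide_eq_true (hd1 s (List.mem_range.2 s.isLt)),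
      if_neg (fun h' => hs (Fin.ext h'.symm)), Int.cast_zero, zero_mul]
  · simp

theorem lws : S_LWS where
  l0 := l0
  r0 := r0
  comm := comm
  deg := deg
  soc := soc
  frob := frob
  nondeg := nondeg

end Run7.h305.LWS
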