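/-
Piece SL2 of the project counterexample to the Nakayama conjecture (helper433):
the Casimir homotopies.
-/
import Pool.Agent.Run7.h433.Nak.Iface

set_option autoImplicit false

namespace Run7.h305.SL2

open Run7.h433.Nak

section Abstract

variable {V U : Type} [AddCommGroup V] [Module ℚ V] [AddCommGroup U] [Module ℚ U]

/-- `sl₂`-relations and a scalar Casimir operator -/
structure Cas (E F H : V →ₗ[ℚ] V) (c : ℚ) : Prop where
  c0 : c ≠ 0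
  ef : ∀ v, E (F v) = F (E v) + H v
  he : ∀ v, H (E v) = E (H v) + (2 : ℚ) • E v
  hf : ∀ v, H (F v) = F (H v) - (2 : ℚ) • F v
  cas : ∀ v, c • v = E (F v) + F (E v) + (1 / 2 : ℚ) • H (H v)

variable {E F H : V →ₗ[ℚ] V} {c : ℚ}

theorem Cas.ef' (h : Cas E F H c) (x : V →ₗ[ℚ] U) (v : V) : x (E (F v)) = x (F (E v)) + x (H v) := by
  rw [h.ef, map_add]

theorem Cas.he' (h : Cas E F H c) (x : V →ₗ[ℚ] U) (v : V) :
    x (H (E v)) = x (E (H v)) + (2 : ℚ) • x (E v) := by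
  rw [h.he, map_add, map_smul]

theorem Cas.hf' (h : Cas E F H c) (x : V →ₗ[ℚ] U) (v : V) :
    x (H (F v)) = x (F (H v)) - (2 : ℚ) • x (F v) := by
  rw [h.hf, map_sub, map_smul]

theorem Cas.cas' (h : Cas E F H c) (x : V →ₗ[ℚ] U) (v : V) :
    c • x v = x (E (F v)) + x (F (E v)) + (1 / 2 : ℚ) • x (H (H v)) := by
  rw [← map_smul, h.cas, map_add, map_add, map_smul]

theorem Cas.inv (h : Cas E F H c) {u w : U} (hw : w = c • u) : c⁻¹ • w = u := by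
  rw [hw, smul_smul, inv_mul_cancel₀ h.c0, one_smul]

theorem Cas.H0 (h : Cas E F H c) (x : V →ₗ[ℚ] U) (h1 : x ∘ₗ E = 0) (h2 : x ∘ₗ F = 0)
    (h3 : x ∘ₗ H = 0) : x = 0 := by
  refine LinearMap.ext fun v => ?_
  have k := h.cas' x v
  have k1 : x (E (F v)) = 0 := LinearMap.congr_fun h1 (F v)
  have k2 : x (F (E v)) = 0 := LinearMap.congr_fun h2 (E v)
  have k3 : x (H (H v)) = 0 := LinearMap.congr_fun h3 (H v)
  rw [k1, k2, k3, smul_zero, add_zero, add_zero] at k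
  exact (smul_eq_zero.1 k).resolve_left h.c0

theorem Cas.H1 (h : Cas E F H c) (x yf yx : V →ₗ[ℚ] U) (h1 : x ∘ₗ F - yf ∘ₗ E - yx = 0)
    (h2 : (2 : ℚ) • x + x ∘ₗ H - yx ∘ₗ E = 0) (h3 : -((2 : ℚ) • yf) + yf ∘ₗ H - yx ∘ₗ F = 0) :
    ∃ x0 : V →ₗ[ℚ] U, x = -(x0 ∘ₗ E) ∧ yf = -(x0 ∘ₗ F) ∧ yx = -(x0 ∘ₗ H) := by
  have k1 : ∀ v, x (F v) - yf (E v) - yx v = 0 := fun v => LinearMap.congr_fun h1 v
  have k2 : ∀ v, (2 : ℚ) • x v + x (H v) - yx (E v) = 0 := fun v => LinearMap.congr_fun h2 v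
  have k3 : ∀ v, -((2 : ℚ) • yf v) + yf (H v) - yx (F v) = 0 := fun v => LinearMap.congr_fun h3 v
  refine ⟨-(c⁻¹ • (x ∘ₗ F + yf ∘ₗ E + (1 / 2 : ℚ) • (yx ∘ₗ H))), ?_, ?_, ?_⟩
  · refine LinearMap.ext fun v => ?_
    show x v = -(-(c⁻¹ • (x (F (E v)) + yf (E (E v)) + (1 / 2 : ℚ) • yx (H (E v)))))
    rw [neg_neg]
    refine (h.inv ?_).symm
    linear_combination (norm := module) (-1 : ℚ) • k1 (E v) + (1 / 2 : ℚ) • h.he' yx v -
      (1 / 2 : ℚ) • k2 (H v) - (1 : ℚ) • h.cas' x v - (1 : ℚ) • h.ef' x v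
  · refine LinearMap.ext fun v => ?_
    show yf v = -(-(c⁻¹ • (x (F (F v)) + yf (E (F v)) + (1 / 2 : ℚ) • yx (H (F v)))))
    rw [neg_neg]
    refine (h.inv ?_).symm
    linear_combination (norm := module) (1 : ℚ) • k1 (F v) + (1 / 2 : ℚ) • h.hf' yx v -
      (1 / 2 : ℚ) • k3 (H v) - (1 : ℚ) • h.cas' yf v + (1 : ℚ) • h.ef' yf v
  · refine LinearMap.ext fun v => ?_
    show yx v = -(-(c⁻¹ • (x (F (H v)) + yf (E (H v)) + (1 / 2 : ℚ) • yx (H (H v)))))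
    rw [neg_neg]
    refine (h.inv ?_).symm
    linear_combination (norm := module) (-1 : ℚ) • h.cas' yx v + (1 : ℚ) • k2 (F v) +
      (1 : ℚ) • k3 (E v) - (1 : ℚ) • h.hf' x v - (1 : ℚ) • h.he' yf v

theorem Cas.H2 (h : Cas E F H c) (bf bx x2 : V →ₗ[ℚ] U)
    (h0 : -(bf ∘ₗ H) + bx ∘ₗ F - x2 ∘ₗ E = 0) :
    ∃ x yf yx : V →ₗ[ℚ] U, bf = x ∘ₗ F - yf ∘ₗ E - yx ∧
      bx = (2 : ℚ) • x + x ∘ₗ H - yx ∘ₗ E ∧ x2 = -((2 : ℚ) • yf) + yf ∘ₗ H - yx ∘ₗ F := by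
  have k : ∀ v, -(bf (H v)) + bx (F v) - x2 (E v) = 0 := fun v => LinearMap.congr_fun h0 v
  refine ⟨c⁻¹ • (bf ∘ₗ E + (1 / 2 : ℚ) • (bx ∘ₗ H)), c⁻¹ • (-(bf ∘ₗ F) + (1 / 2 : ℚ) • (x2 ∘ₗ H)),
    c⁻¹ • (-(bx ∘ₗ F) - x2 ∘ₗ E), ?_, ?_, ?_⟩
  · refine LinearMap.ext fun v => ?_
    show bf v = c⁻¹ • (bf (E (F v)) + (1 / 2 : ℚ) • bx (H (F v))) -
      c⁻¹ • (-(bf (F (E v))) + (1 / 2 : ℚ) • x2 (H (E v))) - c⁻¹ • (-(bx (F v)) - x2 (E v))
    rw [← smul_sub, ← smul_sub]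
    refine (h.inv ?_).symm
    linear_combination (norm := module) (-1 : ℚ) • h.cas' bf v + (1 / 2 : ℚ) • k (H v) +
      (1 / 2 : ℚ) • h.hf' bx v - (1 / 2 : ℚ) • h.he' x2 v
  · refine LinearMap.ext fun v => ?_
    show bx v = (2 : ℚ) • (c⁻¹ • (bf (E v) + (1 / 2 : ℚ) • bx (H v))) +
      c⁻¹ • (bf (E (H v)) + (1 / 2 : ℚ) • bx (H (H v))) - c⁻¹ • (-(bx (F (E v))) - x2 (E (E v)))
    rw [smul_comm (2 : ℚ) c⁻¹, ← smul_add, ← smul_sub]
    refine (h.inv ?_).symm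
    linear_combination (norm := module) (-1 : ℚ) • h.cas' bx v - (1 : ℚ) • k (E v) -
      (1 : ℚ) • h.ef' bx v - (1 : ℚ) • h.he' bf v
  · refine LinearMap.ext fun v => ?_
    show x2 v = -((2 : ℚ) • (c⁻¹ • (-(bf (F v)) + (1 / 2 : ℚ) • x2 (H v)))) +
      c⁻¹ • (-(bf (F (H v))) + (1 / 2 : ℚ) • x2 (H (H v))) - c⁻¹ • (-(bx (F (F v))) - x2 (E (F v)))
    rw [smul_comm (2 : ℚ) c⁻¹, ← smul_neg, ← smul_add, ← smul_sub]
    refine (h.inv ?_).symm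
    linear_combination (norm := module) (-1 : ℚ) • h.cas' x2 v + (1 : ℚ) • k (F v) +
      (1 : ℚ) • h.hf' bf v + (1 : ℚ) • h.ef' x2 v

theorem Cas.H3 (h : Cas E F H c) (w : V →ₗ[ℚ] U) : ∃ bf bx x2 : V →ₗ[ℚ] U,
    w = -(bf ∘ₗ H) + bx ∘ₗ F - x2 ∘ₗ E := by
  refine ⟨c⁻¹ • (-((1 / 2 : ℚ) • (w ∘ₗ H))), c⁻¹ • (w ∘ₗ E), c⁻¹ • (-(w ∘ₗ F)), ?_⟩
  refine LinearMap.ext fun v => ?_
  show w v = -(c⁻¹ • (-((1 / 2 : ℚ) • w (H (H v))))) + c⁻¹ • w (E (F v)) - c⁻¹ • (-(w (F (E v))))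
  rw [← smul_neg, ← smul_add, ← smul_sub]
  refine (h.inv ?_).symm
  linear_combination (norm := module) (-1 : ℚ) • h.cas' w v

end Abstract

theorem casVm (m : ℕ) : Cas (vE (m + 1)) (vF (m + 1)) (vH (m + 1))
    (((m : ℚ) + 1) * ((m : ℚ) + 3) / 2) where
  c0 := by positivity
  ef v := by
    have h := LinearMap.congr_fun (SV (m + 1)).ef v
    exact sub_eq_iff_eq_add'.1 h
  he v := by
    have h := LinearMap.congr_fun (SV (m + 1)).he v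
    exact sub_eq_iff_eq_add'.1 h
  hf v := by
    have h := LinearMap.congr_fun (SV (m + 1)).hf v
    have h' := sub_eq_iff_eq_add'.1 h
    rw [sub_eq_add_neg]
    exact h'
  cas v := by
    refine Vm.ext fun k => ?_
    cases k with
    | zero =>
      show ((m : ℚ) + 1) * ((m : ℚ) + 3) / 2 * v.c 0 =
        (((0 : ℕ) : ℚ) + 1) * ((((m + 1 : ℕ) : ℚ) - ((0 : ℕ) : ℚ)) * v.c 0) + 0 +
        (1 / 2 : ℚ) * ((((m + 1 : ℕ) : ℚ) - 2 * ((0 : ℕ) : ℚ)) *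
          ((((m + 1 : ℕ) : ℚ) - 2 * ((0 : ℕ) : ℚ)) * v.c 0))
      push_cast
      ring
    | succ k =>
      show ((m : ℚ) + 1) * ((m : ℚ) + 3) / 2 * v.c (k + 1) =
        (((k + 1 : ℕ) : ℚ) + 1) * ((((m + 1 : ℕ) : ℚ) - ((k + 1 : ℕ) : ℚ)) * v.c (k + 1)) +
        (((m + 1 : ℕ) : ℚ) - (k : ℚ)) * (((k : ℚ) + 1) * v.c (k + 1)) +
        (1 / 2 : ℚ) * ((((m + 1 : ℕ) : ℚ) - 2 * ((k + 1 : ℕ) : ℚ)) *
          ((((m + 1 : ℕ) : ℚ) - 2 * ((k + 1 : ℕ) : ℚ)) * v.c (k + 1)))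
      push_cast
      ring

theorem e0 : vE 0 = 0 := by
  refine LinearMap.ext fun x => Vm.ext fun k => ?_
  show ((k : ℚ) + 1) * x.c (k + 1) = 0
  rw [x.out (k + 1) (by omega), mul_zero]

theorem f0 : vF 0 = 0 := by
  refine LinearMap.ext fun x => Vm.ext fun k => ?_
  cases k with
  | zero => rfl
  | succ k =>
    show (((0 : ℕ) : ℚ) - (k : ℚ)) * x.c k = 0
    cases k with
    | zero => simp
    | succ k => rw [x.out (k + 1) (by omega), mul_zero]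

theorem h0 : vH 0 = 0 := by
  refine LinearMap.ext fun x => Vm.ext fun k => ?_
  show (((0 : ℕ) : ℚ) - 2 * (k : ℚ)) * x.c k = 0
  cases k with
  | zero => simp
  | succ k => rw [x.out (k + 1) (by omega), mul_zero]

theorem sl2 : S_SL2 := by
  intro U _ _
  refine ⟨fun m x => (casVm m).H0 x, fun m => ?_, fun m => ?_, fun m w => (casVm m).H3 w⟩
  · cases m with
    | succ m => exact (casVm m).H1
    | zero =>
      intro x yf yx h1 h2 h3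
      rw [e0, f0, LinearMap.comp_zero, LinearMap.comp_zero, sub_zero, zero_sub, neg_eq_zero] at h1
      rw [e0, h0, LinearMap.comp_zero, LinearMap.comp_zero, add_zero, sub_zero] at h2
      rw [f0, h0, LinearMap.comp_zero, LinearMap.comp_zero, add_zero, sub_zero, neg_eq_zero] at h3
      have h2' := (smul_eq_zero.1 h2).resolve_left two_ne_zero
      have h3' := (smul_eq_zero.1 h3).resolve_left two_ne_zero
      exact ⟨0, by rw [h2', LinearMap.zero_comp, neg_zero], by rw [h3', LinearMap.zero_comp, neg_zero],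
        by rw [h1, LinearMap.zero_comp, neg_zero]⟩
  · cases m with
    | succ m => exact (casVm m).H2
    | zero =>
      intro bf bx x2 _
      refine ⟨(1 / 2 : ℚ) • bx, -((1 / 2 : ℚ) • x2), -bf, ?_, ?_, ?_⟩
      · rw [e0, f0, LinearMap.comp_zero, LinearMap.comp_zero]; simp
      · rw [e0, h0, LinearMap.comp_zero, LinearMap.comp_zero, smul_smul]; norm_num
      · rw [f0, h0, LinearMap.comp_zero, LinearMap.comp_zero, smul_neg, smul_smul]; norm_num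

end Run7.h305.SL2
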