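/-
Piece VS of the project counterexample to the Nakayama conjecture (helper433):
the representations `Vm m`.
-/
import Pool.Agent.Run7.h305.Nak.SL2

set_option autoImplicit false

namespace Run7.h305.VS

open Run7.h433.Nak

theorem P_c {m : ℕ} (x : Vm (m + 1)) (k : ℕ) : (vP m x).c k = ((m : ℚ) + 1 - k) * x.c k := rfl
theorem Q_c {m : ℕ} (x : Vm (m + 1)) (k : ℕ) : (vQ m x).c k = ((k : ℚ) + 1) * x.c (k + 1) := rfl
theorem E_c {m : ℕ} (x : Vm m) (k : ℕ) : (vE m x).c k = ((k : ℚ) + 1) * x.c (k + 1) := rfl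
theorem H_c {m : ℕ} (x : Vm m) (k : ℕ) : (vH m x).c k = ((m : ℚ) - 2 * k) * x.c k := rfl
theorem F_c0 {m : ℕ} (x : Vm m) : (vF m x).c 0 = 0 := rfl
theorem F_cs {m : ℕ} (x : Vm m) (k : ℕ) : (vF m x).c (k + 1) = ((m : ℚ) - k) * x.c k := rfl

theorem yrel (m : ℕ) : YRel (SV (m + 1)) (SV m) (vP m) (vQ m) where
  pe := by
    refine LinearMap.ext fun x => Vm.ext fun k => ?_
    show (vP m (vE (m + 1) x) - vE m (vP m x)).c k = (vQ m x).c k
    rw [Vm.c_sub, P_c, E_c, E_c, P_c, Q_c]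
    push_cast; ring
  qe := by
    refine LinearMap.ext fun x => Vm.ext fun k => ?_
    show (vQ m (vE (m + 1) x)).c k = (vE m (vQ m x)).c k
    rw [Q_c, E_c, E_c, Q_c]
  pf := by
    refine LinearMap.ext fun x => Vm.ext fun k => ?_
    show (vP m (vF (m + 1) x)).c k = (vF m (vP m x)).c k
    cases k with
    | zero => rw [P_c, F_c0, F_c0, mul_zero]
    | succ k => rw [P_c, F_cs, F_cs, P_c]; push_cast; ring
  qf := by
    refine LinearMap.ext fun x => Vm.ext fun k => ?_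
    show (vQ m (vF (m + 1) x) - vF m (vQ m x)).c k = (vP m x).c k
    cases k with
    | zero => rw [Vm.c_sub, Q_c, F_cs, F_c0, P_c]; push_cast; ring
    | succ k => rw [Vm.c_sub, Q_c, F_cs, F_cs, P_c, Q_c]; push_cast; ring
  ph := by
    refine LinearMap.ext fun x => Vm.ext fun k => ?_
    show (vP m (vH (m + 1) x) - vH m (vP m x)).c k = (vP m x).c k
    rw [Vm.c_sub, P_c, H_c, H_c, P_c]
    push_cast; ring
  qh := by
    refine LinearMap.ext fun x => Vm.ext fun k => ?_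
    show (vQ m (vH (m + 1) x) - vH m (vQ m x)).c k = (-vQ m x).c k
    rw [Vm.c_sub, Vm.c_neg, Q_c, H_c, H_c, Q_c]
    push_cast; ring

theorem pq (m : ℕ) : vP m ∘ₗ vQ (m + 1) = vQ m ∘ₗ vP (m + 1) := by
  refine LinearMap.ext fun x => Vm.ext fun k => ?_
  show (vP m (vQ (m + 1) x)).c k = (vQ m (vP (m + 1) x)).c k
  rw [P_c, Q_c, Q_c, P_c]
  push_cast; ring

theorem inj (m : ℕ) (v : Vm (m + 1)) (hP : vP m v = 0) (hQ : vQ m v = 0) : v = 0 := by
  refine Vm.ext fun k => ?_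
  rw [Vm.c_zero]
  cases k with
  | zero =>
    have h := congrArg (fun x => Vm.c x 0) hP
    simp only [P_c, Vm.c_zero] at h
    have h2 : ((m : ℚ) + 1 - ((0 : ℕ) : ℚ)) ≠ 0 := by
      rw [Nat.cast_zero, sub_zero]; positivity
    exact (mul_eq_zero.1 h).resolve_left h2
  | succ k =>
    have h := congrArg (fun x => Vm.c x k) hQ
    simp only [Q_c, Vm.c_zero] at h
    exact (mul_eq_zero.1 h).resolve_left (by positivity)

theorem surj (m : ℕ) (v : Vm m) : ∃ u : Vm (m + 1), vP m u = v := by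
  refine ⟨Vm.mk (fun k => v.c k / ((m : ℚ) + 1 - k)) (fun k hk => ?_), Vm.ext fun k => ?_⟩
  · rw [v.out k (by omega), zero_div]
  · rw [P_c, Vm.c_mk]
    by_cases h : k ≤ m
    · have h1 : ((m : ℚ) + 1 - k) ≠ 0 := by
        have : (k : ℚ) ≤ m := by exact_mod_cast h
        have : (0 : ℚ) < (m : ℚ) + 1 - k := by linarith
        exact this.ne'
      field_simp
    · rw [v.out k (by omega), zero_div, mul_zero]

theorem poin (m : ℕ) (u1 u2 : Vm (m + 1)) (h : vQ m u1 = vP m u2) :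
    ∃ v : Vm (m + 2), vP (m + 1) v = u1 ∧ vQ (m + 1) v = u2 := by
  have hc : ∀ k : ℕ, ((k : ℚ) + 1) * u1.c (k + 1) = ((m : ℚ) + 1 - k) * u2.c k := fun k => by
    have := congrArg (fun x => Vm.c x k) h
    simpa only [P_c, Q_c] using this
  refine ⟨Vm.mk (fun k => Nat.casesOn k (u1.c 0 / ((m : ℚ) + 2))
    (fun j => u2.c j / ((j : ℚ) + 1))) (fun k hk => ?_), Vm.ext fun k => ?_, Vm.ext fun k => ?_⟩
  · obtain ⟨j, rfl⟩ : ∃ j, k = j + 1 := ⟨k - 1, by omega⟩
    show u2.c j / _ = 0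
    rw [u2.out j (by omega), zero_div]
  · rw [P_c, Vm.c_mk]
    cases k with
    | zero =>
      show (((m + 1 : ℕ) : ℚ) + 1 - ((0 : ℕ) : ℚ)) * (u1.c 0 / ((m : ℚ) + 2)) = u1.c 0
      have h1 : ((m : ℚ) + 2) ≠ 0 := by positivity
      push_cast
      field_simp
      ring
    | succ j =>
      show (((m + 1 : ℕ) : ℚ) + 1 - ((j + 1 : ℕ) : ℚ)) * (u2.c j / ((j : ℚ) + 1)) = u1.c (j + 1)
      have h1 : ((j : ℚ) + 1) ≠ 0 := by positivity
      have h2 := hc j
      have h3 : u1.c (j + 1) = ((m : ℚ) + 1 - j) * u2.c j / ((j : ℚ) + 1) := by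
        rw [← h2]; field_simp
      rw [h3]
      push_cast
      ring
  · rw [Q_c, Vm.c_mk]
    show ((k : ℚ) + 1) * (u2.c k / ((k : ℚ) + 1)) = u2.c k
    have h1 : ((k : ℚ) + 1) ≠ 0 := by positivity
    field_simp

theorem fin (m : ℕ) : Module.Finite ℚ (Vm m) := by
  let L : Vm m →ₗ[ℚ] (Fin (m + 1) → ℚ) :=
    { toFun := fun x k => x.c k
      map_add' := fun x y => rfl
      map_smul' := fun c x => rfl }
  have hL : Function.Injective L := by
    intro x y hxy
    refine Vm.ext fun k => ?_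
    by_cases h : k ≤ m
    · exact congrFun hxy ⟨k, by omega⟩
    · rw [x.out k (by omega), y.out k (by omega)]
  exact Module.Finite.of_injective L hL

theorem vs : S_VS where
  yrel := yrel
  pq := pq
  inj := inj
  surj := surj
  poin := poin
  fin := fin
  e0 := SL2.e0
  f0 := SL2.f0
  h0 := SL2.h0

end Run7.h305.VS
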